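import Pool.Agent.Y121.GT.Main

/-!
# The noncommutative Tate conjecture for direct summands of geometric noncommutative motives

Let `X` be smooth projective over `𝔽_q` (in a class `𝒱` of varieties closed under products), `C` the
Chow groups with rational coefficients, `H` the `l`-adic cohomology `H(X̄, ℚ_l)` with the Frobenius
`φ`, and `T` the Chow groups over the finite extensions of `𝔽_q`.

Let `𝒜` be a smooth proper dg category whose noncommutative motive is a direct summand of the one of
`perf_dg(X)` (for example an admissible subcategory): it is given by an element `e` of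
`K_0(X × X)_ℚ = CH^*(X × X)_ℚ` of mixed degrees, idempotent (modulo homological equivalence). The
group `G_n(𝒜)_ℚ` of the problem is the cokernel of the map from `K_0(X_n, e) ⊗ ℚ_l` to the
Frobenius invariants of `e (⊕_i H^(2 i)(X̄)(i))` (Thomason).

There is a homogeneous `p ∈ CH^(dim X)(X × X)_ℚ`, idempotent modulo homological equivalence, such
that `(X, e)` and the Chow motive `(X, p)` are isomorphic modulo homological equivalence, and over
every finite extension of `𝔽_q` the noncommutative Tate conjecture for `𝒜` is equivalent to Tate's
conjecture for `(X, p)` in all codimensions.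
-/

set_option autoImplicit false

universe u v

open CategoryTheory Pool.Agent.H914 Pool.Agent.H914.VarClass Pool.Agent.W492.BB
  Pool.Agent.TH133 Pool.Agent.Y121.NK Pool.Agent.Y121.TP Pool.Agent.Y121.GT in
theorem Pool.Agent.Results.MP_de89cc_ag.GeometricTate.result
    {k : Type u} [Field k] {𝒱 : VarClass k} {C : TheoryData.{u, v, 0} 𝒱 ℚ} [IsChowProj C]
    {K : Type} [Field K] [CharZero K] {H : WeilTheoryData.{u, v, 0} C K} [IsWeilProj H]
    (hcomm : GradedComm H) {X : 𝒱.Obj} [FiniteDimensional K (H.A X)]
    [FiniteDimensional K (H.A (X.prod X))] {q : ℕ} {φ : X ⟶ X} (hφ : IsFrob H q φ)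
    {T : Tower H} (hT : IsTower T) {e : C.A (X.prod X)} (he : HomEq H (C.comp e e) e) :
    ∃ p : C.A (X.prod X), C.Deg X.dim p ∧ HomEq H (C.comp p p) p ∧ HomIsoK H e p ∧
      ∀ n, NCTate T q φ n e ↔ MotTate T q φ n p :=
  tate_main hcomm hφ hT he
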