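import Pool.Agent.Y121.GT.Ind2

/-!
# The strong form of the noncommutative Tate conjecture does not depend on the prime `l`

Let `X` be smooth projective over `𝔽_q` (in a class `𝒱` of varieties closed under products), `C` the
Chow groups with rational coefficients, `T` the Chow groups over the finite extensions of `𝔽_q`, and
`H₁`, `H₂` the `l`-adic cohomology theories for two primes `l` (or two cohomology theories with the
same formal properties), with coefficients in `K₁`, `K₂`.

Let `𝒜` be a smooth proper dg category whose noncommutative motive is a direct summand `(X, e)` of the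
one of `perf_dg(X)` (for example an admissible subcategory): `e` is an element of
`K_0(X × X)_ℚ = CH^*(X × X)_ℚ` of mixed degrees which acts as an idempotent on the cohomology.

For every finite extension of `𝔽_q`: the multiplicity of the eigenvalue one of Frobenius on
`TP_0(𝒜) = e (⊕_i H^(2 i)(X̄)(i))` is the same for both theories; it is equal to the rank of `K_0(𝒜)`
modulo numerical equivalence if and only if the noncommutative Tate conjecture holds for `𝒜` and
numerical and homological equivalence coincide on `K_0(𝒜)_ℚ`; so the conjunction of the latter two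
conjectures for one prime `l` implies it for all other primes.
-/

set_option autoImplicit false

universe u v

open CategoryTheory Pool.Agent.H914 Pool.Agent.H914.VarClass Pool.Agent.W492.BB
  Pool.Agent.TH133 Pool.Agent.Y121.NK Pool.Agent.Y121.TP Pool.Agent.Y121.GT in
theorem Pool.Agent.Results.MP_de89cc_ag.IndependenceOfPrime.result
    {k : Type u} [Field k] {𝒱 : VarClass k} {C : TheoryData.{u, v, 0} 𝒱 ℚ} [IsChowProj C]
    (T : ChowTower C) (hT : ∀ n, IsChowProj (T.CC n)) {K₁ K₂ : Type} [Field K₁] [CharZero K₁]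
    [Field K₂] [CharZero K₂] {H₁ : WeilTheoryData.{u, v, 0} C K₁}
    {H₂ : WeilTheoryData.{u, v, 0} C K₂} (c₁ : Classes T H₁) (c₂ : Classes T H₂) (X : 𝒱.Obj)
    [FiniteDimensional K₁ (H₁.A X)] [FiniteDimensional K₂ (H₂.A X)] {q : ℕ} {φ : X ⟶ X}
    {F₁ : H₁.A X →ₗ[K₁] H₁.A X} {F₂ : H₂.A X →ₗ[K₂] H₂.A X}
    (h₁ : IsReal c₁ X q φ F₁) (h₂ : IsReal c₂ X q φ F₂) (e : C.A (X.prod X))
    (he₁ : ActsIdem H₁ e) (he₂ : ActsIdem H₂ e) (n : ℕ) :
    multNC H₁ F₁ n e = multNC H₂ F₂ n e ∧
      ((TateNC c₁ F₁ n e ∧ NumHomNC c₁ n e) ↔ rankNC T n e = multNC H₁ F₁ n e) ∧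
      ((TateNC c₁ F₁ n e ∧ NumHomNC c₁ n e) ↔ (TateNC c₂ F₂ n e ∧ NumHomNC c₂ n e)) := by
  have h3 : multNC H₁ F₁ n e = multNC H₂ F₂ n e := mult_indep h₁ h₂ (e := e) he₁ he₂ n
  have h4 : (TateNC c₁ F₁ n e ∧ NumHomNC c₁ n e) ↔ rankNC T n e = multNC H₁ F₁ n e :=
    strong hT h₁ (e := e) he₁ n
  have h5 : (TateNC c₂ F₂ n e ∧ NumHomNC c₂ n e) ↔ rankNC T n e = multNC H₂ F₂ n e :=
    strong hT h₂ (e := e) he₂ n
  refine ⟨h3, h4, ?_⟩
  rw [h4, h5, h3]
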